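import Pool.Agent.W299.EV3.Alg

set_option autoImplicit false

namespace Pool.Agent.W299.EV3

/-- the middle coefficient, two negative variables. -/
theorem E_two {x y z p q r : ℝ} (hx : x ≤ 0) (hy : y ≤ 0)
    (hp : p ^ 2 = 4 - x ^ 2) (hq : q ^ 2 = 4 - y ^ 2)
    (hp0 : 0 < p) (hq0 : 0 < q) (hr0 : 0 < r)
    (h1 : 0 ≤ x + y + z)
    (h2 : 0 ≤ 3 + x * y + y * z + z * x) :
    0 < p * (2 + y * z) + q * (2 + x * z) + r * (2 + x * y) := by
  have hxy : 0 ≤ x * y := mul_nonneg_of_nonpos_of_nonpos hx hy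
  have hr2 : 0 < r * (2 + x * y) := by positivity
  suffices h : 0 ≤ p * (2 + y * z) + q * (2 + x * z) by linarith
  rcases (add_nonpos hx hy).lt_or_eq with hs | hs
  · have hm := prod_sq hp hq
    have h4 : x ^ 2 + x * y + y ^ 2 ≤ 3 := by nlinarith
    have h5 : 2 + x * y ≤ p * q := by
      have : (2 + x * y) ^ 2 ≤ (p * q) ^ 2 := by
        rw [hm]; nlinarith
      exact (abs_le_of_sq_le_sq' this (by positivity)).2
    have h6 : 0 ≤ (-(x + y)) * (p * (2 + y * z) + q * (2 + x * z)) := by
      have a1 : 0 ≤ (p * (-y) + q * (-x)) * (3 + x * y + y * z + z * x) := by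
        apply mul_nonneg _ h2
        have := mul_nonneg hp0.le (neg_nonneg.2 hy)
        have := mul_nonneg hq0.le (neg_nonneg.2 hx)
        linarith
      have a2 : 0 ≤ (p * (-y) + q * (-x)) * (p * q - x * y - 2) := by
        apply mul_nonneg _ (by linarith)
        have := mul_nonneg hp0.le (neg_nonneg.2 hy)
        have := mul_nonneg hq0.le (neg_nonneg.2 hx)
        linarith
      have e : (-(x + y)) * (p * (2 + y * z) + q * (2 + x * z)) =
          (p * (-y) + q * (-x)) * (3 + x * y + y * z + z * x) +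
            (p * (-y) + q * (-x)) * (p * q - x * y - 2) / 2 := by
        linear_combination (q * y / 2) * hp + (p * x / 2) * hq
      rw [e]
      linarith
    by_contra hcon
    push Not at hcon
    have : (-(x + y)) * (p * (2 + y * z) + q * (2 + x * z)) < 0 :=
      mul_neg_of_pos_of_neg (by linarith) hcon
    linarith
  · have hx0 : x = 0 := by linarith
    have hy0 : y = 0 := by linarith
    subst hx0 hy0
    simp only [zero_mul, add_zero]
    positivity

theorem E_pos {x y z p q r : ℝ} (hx2 : |x| < 2) (hy2 : |y| < 2) (hz2 : |z| < 2)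
    (hp : p ^ 2 = 4 - x ^ 2) (hq : q ^ 2 = 4 - y ^ 2) (hr : r ^ 2 = 4 - z ^ 2)
    (hp0 : 0 < p) (hq0 : 0 < q) (hr0 : 0 < r)
    (h1 : 0 ≤ x + y + z)
    (h2 : 0 ≤ 3 + x * y + y * z + z * x)
    (h3 : 0 ≤ 2 * (x + y + z) + x * y * z) :
    0 < p * (2 + y * z) + q * (2 + x * z) + r * (2 + x * y) := by
  have x2 := (abs_lt.1 hx2).2
  have y2 := (abs_lt.1 hy2).2
  have z2 := (abs_lt.1 hz2).2
  rcases le_total x 0 with hx | hx <;> rcases le_total y 0 with hy | hy <;>
    rcases le_total z 0 with hz | hz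
  · have := E_two (z := z) hx hy hp hq hp0 hq0 hr0 h1 h2
    linarith
  · have := E_two (z := z) hx hy hp hq hp0 hq0 hr0 h1 h2
    linarith
  · have := E_two (z := y) hx hz hp hr hp0 hr0 hq0 (by linarith) (by linarith)
    linarith
  · have := E_one hx hy hz y2 z2 hp hq hr hp0 hq0 hr0 h2 h3
    linarith
  · have := E_two (z := x) hy hz hq hr hq0 hr0 hp0 (by linarith) (by linarith)
    linarith
  · have := E_one hy hx hz x2 z2 hq hp hr hq0 hp0 hr0 (by linarith) (by linarith)
    linarith
  · have := E_one hz hx hy x2 y2 hr hp hq hr0 hp0 hq0 (by linarith) (by linarith)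
    linarith
  · have b1 := mul_nonneg hp0.le (mul_nonneg hy hz)
    have b2 := mul_nonneg hq0.le (mul_nonneg hx hz)
    have b3 := mul_nonneg hr0.le (mul_nonneg hx hy)
    nlinarith

end Pool.Agent.W299.EV3
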