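import Mathlib

set_option autoImplicit false

namespace Pool.Agent.W299.EV3

/-- `(q r)^2` in terms of `y, z`. -/
theorem prod_sq {y z q r : ℝ} (hq : q ^ 2 = 4 - y ^ 2) (hr : r ^ 2 = 4 - z ^ 2) :
    (q * r) ^ 2 = (4 - y ^ 2) * (4 - z ^ 2) := by
  rw [mul_pow, hq, hr]

theorem key_id {y z q r : ℝ} (hq : q ^ 2 = 4 - y ^ 2) (hr : r ^ 2 = 4 - z ^ 2) :
    4 * (y + z) ^ 2 * ((2 + y * z) ^ 2 - (y + z) ^ 2) -
        (q * y * (2 - z ^ 2) + r * z * (2 - y ^ 2)) ^ 2 =
      y * z * (4 - q * r + y * z) *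
        ((q * r) ^ 2 + (y * z) ^ 2 + 8 + 4 * (q * r) + 4 * (y * z)) := by
  have hm := prod_sq hq hr
  linear_combination (-(y ^ 2 * (2 - z ^ 2) ^ 2)) * hq + (-(z ^ 2 * (2 - y ^ 2) ^ 2)) * hr +
    (y * z * (q * r) - (y * z) ^ 2) * hm

theorem pos_of_mul_pos_of_pos_left' {a b : ℝ} (h : 0 < a * b) (ha : 0 < a) : 0 < b := by
  by_contra hb
  have : a * b ≤ 0 := mul_nonpos_of_nonneg_of_nonpos ha.le (not_lt.1 hb)
  linarith

theorem qr_le {y z q r : ℝ} (hq : q ^ 2 = 4 - y ^ 2) (hr : r ^ 2 = 4 - z ^ 2) :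
    q * r ≤ 4 := by
  nlinarith [sq_nonneg (q - r), sq_nonneg y, sq_nonneg z]

/-- the coefficient of `z^2`, one negative variable. -/
theorem K_one {x y z p q r : ℝ} (hx : x ≤ 0) (hy : 0 ≤ y) (hz : 0 ≤ z) (hy2 : y < 2)
    (hz2 : z < 2) (hp : p ^ 2 = 4 - x ^ 2) (hq : q ^ 2 = 4 - y ^ 2) (hr : r ^ 2 = 4 - z ^ 2)
    (hp0 : 0 < p) (hq0 : 0 < q) (hr0 : 0 < r)
    (h3 : 0 ≤ 2 * (x + y + z) + x * y * z) :
    0 ≤ p * (y + z) + q * (x + z) + r * (x + y) := by
  have hg : 0 ≤ y * z := mul_nonneg hy hz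
  have hg2 : 0 < 2 + y * z := by linarith
  have hyz : y + z ≤ 2 + y * z := by nlinarith
  have hW0 : 0 ≤ (2 + y * z) ^ 2 - (y + z) ^ 2 := by nlinarith
  set W := Real.sqrt ((2 + y * z) ^ 2 - (y + z) ^ 2) with hW
  have hWsq : W ^ 2 = (2 + y * z) ^ 2 - (y + z) ^ 2 := Real.sq_sqrt hW0
  have hWn : 0 ≤ W := Real.sqrt_nonneg _
  have h3' : -x * (2 + y * z) ≤ 2 * (y + z) := by nlinarith
  have h1 : 2 * W ≤ p * (2 + y * z) := by
    have : (2 * W) ^ 2 ≤ (p * (2 + y * z)) ^ 2 := by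
      have e : (p * (2 + y * z)) ^ 2 - (2 * W) ^ 2 =
          (2 * (y + z) - (-x) * (2 + y * z)) * (2 * (y + z) + (-x) * (2 + y * z)) := by
        linear_combination (2 + y * z) ^ 2 * hp - 4 * hWsq
      have h4 : 0 ≤ 2 * (y + z) + (-x) * (2 + y * z) := by
        have := mul_nonneg (neg_nonneg.2 hx) hg2.le
        linarith
      have h5 : 0 ≤ 2 * (y + z) - (-x) * (2 + y * z) := by linarith
      have := mul_nonneg h5 h4
      linarith
    exact (abs_le_of_sq_le_sq' this (by positivity)).2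
  have h2 : q * y * (2 - z ^ 2) + r * z * (2 - y ^ 2) ≤ 2 * (y + z) * W := by
    have hid := key_id hq hr
    have hqr := qr_le hq hr
    have hm : 0 < q * r := mul_pos hq0 hr0
    have h6 : 0 ≤ y * z * (4 - q * r + y * z) *
        ((q * r) ^ 2 + (y * z) ^ 2 + 8 + 4 * (q * r) + 4 * (y * z)) := by
      apply mul_nonneg (mul_nonneg hg (by linarith))
      positivity
    have h7 : (q * y * (2 - z ^ 2) + r * z * (2 - y ^ 2)) ^ 2 ≤ (2 * (y + z) * W) ^ 2 := by
      have : (2 * (y + z) * W) ^ 2 = 4 * (y + z) ^ 2 * ((2 + y * z) ^ 2 - (y + z) ^ 2) := by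
        rw [← hWsq]; ring
      rw [this]
      linarith
    exact (abs_le_of_sq_le_sq' h7 (by positivity)).2
  have h8 : 0 ≤ (2 + y * z) * (p * (y + z) + q * (x + z) + r * (x + y)) := by
    have a1 : 2 * W * (y + z) ≤ p * (2 + y * z) * (y + z) :=
      mul_le_mul_of_nonneg_right h1 (by linarith)
    have a2 : 0 ≤ q * (2 * (y + z) - (-x) * (2 + y * z)) := mul_nonneg hq0.le (by linarith)
    have a3 : 0 ≤ r * (2 * (y + z) - (-x) * (2 + y * z)) := mul_nonneg hr0.le (by linarith)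
    nlinarith
  exact nonneg_of_mul_nonneg_right h8 hg2

/-- the coefficient of `z^2`, two negative variables. -/
theorem K_two {x y z p q r : ℝ} (hx : x ≤ 0) (hy : y ≤ 0)
    (hp : p ^ 2 = 4 - x ^ 2) (hq : q ^ 2 = 4 - y ^ 2) (hr : r ^ 2 = 4 - z ^ 2)
    (hp0 : 0 < p) (hq0 : 0 < q)
    (h1 : 0 ≤ x + y + z) :
    0 ≤ p * (y + z) + q * (x + z) + r * (x + y) := by
  have h2 : r ≤ p := by
    have : r ^ 2 ≤ p ^ 2 := by nlinarith
    exact (abs_le_of_sq_le_sq' this hp0.le).2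
  have h3 : r ≤ q := by
    have : r ^ 2 ≤ q ^ 2 := by nlinarith
    exact (abs_le_of_sq_le_sq' this hq0.le).2
  have a1 : 0 ≤ (p - r) * (-x) := mul_nonneg (by linarith) (by linarith)
  have a2 : 0 ≤ (q - r) * (-y) := mul_nonneg (by linarith) (by linarith)
  have a3 : 0 ≤ p * (x + y + z) := mul_nonneg hp0.le h1
  have a4 : 0 ≤ q * (x + y + z) := mul_nonneg hq0.le h1
  nlinarith

theorem K_nonneg {x y z p q r : ℝ} (hx2 : |x| < 2) (hy2 : |y| < 2) (hz2 : |z| < 2)
    (hp : p ^ 2 = 4 - x ^ 2) (hq : q ^ 2 = 4 - y ^ 2) (hr : r ^ 2 = 4 - z ^ 2)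
    (hp0 : 0 < p) (hq0 : 0 < q) (hr0 : 0 < r)
    (h1 : 0 ≤ x + y + z) (h3 : 0 ≤ 2 * (x + y + z) + x * y * z) :
    0 ≤ p * (y + z) + q * (x + z) + r * (x + y) := by
  have x2 := (abs_lt.1 hx2).2
  have y2 := (abs_lt.1 hy2).2
  have z2 := (abs_lt.1 hz2).2
  rcases le_total x 0 with hx | hx <;> rcases le_total y 0 with hy | hy <;>
    rcases le_total z 0 with hz | hz
  · have := K_two hx hy hp hq hr hp0 hq0 h1
    linarith
  · have := K_two hx hy hp hq hr hp0 hq0 h1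
    linarith
  · have := K_two hx hz hp hr hq hp0 hr0 (by linarith)
    linarith
  · have := K_one hx hy hz y2 z2 hp hq hr hp0 hq0 hr0 h3
    linarith
  · have := K_two hy hz hq hr hp hq0 hr0 (by linarith)
    linarith
  · have := K_one hy hx hz x2 z2 hq hp hr hq0 hp0 hr0 (by linarith)
    linarith
  · have := K_one hz hx hy x2 y2 hr hp hq hr0 hp0 hq0 (by linarith)
    linarith
  · have b1 := mul_nonneg hp0.le (add_nonneg hy hz)
    have b2 := mul_nonneg hq0.le (add_nonneg hx hz)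
    have b3 := mul_nonneg hr0.le (add_nonneg hx hy)
    linarith

/-- bound on the final square comparison, `m^2 >= 4 - 2 g - g^2`. -/
theorem caseI {g m W s : ℝ} (hg : 0 ≤ g) (hm : 0 < m) (hW0 : 0 ≤ W) (hs : 0 < s)
    (hW : 4 * W ^ 2 = 8 * g + 3 * g ^ 2 + m ^ 2)
    (hss : 4 * s ^ 2 = 16 + 8 * m + m ^ 2 - g ^ 2)
    (hc : 4 - 2 * g - g ^ 2 ≤ m ^ 2) :
    0 < (2 + g) * W + s * (m - 2) := by
  have hWpos : 0 < W := by
    rcases hW0.lt_or_eq with h | h
    · exact h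
    · exfalso
      rw [← h] at hW
      nlinarith [sq_nonneg g, pow_pos hm 2]
  rcases le_or_gt 2 m with h | h
  · have a1 : 0 < (2 + g) * W := by positivity
    have a2 : 0 ≤ s * (m - 2) := mul_nonneg hs.le (by linarith)
    linarith
  · have key : (s * (2 - m)) ^ 2 < ((2 + g) * W) ^ 2 := by
      have b1 : (4 + 2 * g + g ^ 2) ^ 2 ≤ (2 + g) ^ 2 * (4 + 6 * g + 2 * g ^ 2) := by
        have : (2 + g) ^ 2 * (4 + 6 * g + 2 * g ^ 2) - (4 + 2 * g + g ^ 2) ^ 2 =
          24 * g + 24 * g ^ 2 + 10 * g ^ 3 + g ^ 4 := by ring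
        have : 0 ≤ 24 * g + 24 * g ^ 2 + 10 * g ^ 3 + g ^ 4 := by positivity
        linarith
      have b2 : (2 + g) ^ 2 * (4 + 6 * g + 2 * g ^ 2) ≤ (2 + g) ^ 2 * (4 * W ^ 2) := by
        apply mul_le_mul_of_nonneg_left _ (by positivity)
        linarith
      have b3 : 0 ≤ (4 + m) * (2 - m) := mul_nonneg (by linarith) (by linarith)
      have b4 : (4 + m) * (2 - m) < 4 + 2 * g + g ^ 2 := by nlinarith
      have b5 : ((4 + m) * (2 - m)) ^ 2 < (4 + 2 * g + g ^ 2) ^ 2 :=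
        pow_lt_pow_left₀ b4 b3 two_ne_zero
      have b6 : 4 * s ^ 2 * (2 - m) ^ 2 ≤ ((4 + m) * (2 - m)) ^ 2 := by
        rw [hss]
        have : ((4 + m) * (2 - m)) ^ 2 - (16 + 8 * m + m ^ 2 - g ^ 2) * (2 - m) ^ 2 =
          g ^ 2 * (2 - m) ^ 2 := by ring
        have : 0 ≤ g ^ 2 * (2 - m) ^ 2 := by positivity
        linarith
      have e1 : (s * (2 - m)) ^ 2 = s ^ 2 * (2 - m) ^ 2 := by ring
      have e2 : ((2 + g) * W) ^ 2 = (2 + g) ^ 2 * W ^ 2 := by ring
      rw [e1, e2]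
      linarith
    have := lt_of_pow_lt_pow_left₀ 2 (by positivity) key
    linarith

/-- bound on the final square comparison, `m^2 <= 4 - 2 g - g^2`. -/
theorem caseII {g m V s : ℝ} (hg : 0 ≤ g) (hm : 0 < m) (hV0 : 0 ≤ V) (hs : 0 ≤ s)
    (hV : V ^ 2 = 7 + 2 * g - m ^ 2)
    (hss : s ^ 2 = 16 - (m - g) ^ 2)
    (hc : m ^ 2 ≤ 4 - 2 * g - g ^ 2) :
    0 < V * (2 + g) + s * (m - g - 2) / 2 := by
  have hVpos : 0 < V := by
    rcases hV0.lt_or_eq with h | h
    · exact h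
    · exfalso
      rw [← h] at hV
      nlinarith [sq_nonneg g]
  rcases le_or_gt (2 + g) m with h | h
  · have a1 : 0 < V * (2 + g) := by positivity
    have a2 : 0 ≤ s * (m - g - 2) := mul_nonneg hs (by linarith)
    linarith
  · have hm2 : m ≤ 2 := by nlinarith [sq_nonneg g]
    have key0 : 0 < (2 + g) ^ 2 * (3 + 2 * g - m ^ 2) + 4 * m * (4 + 2 * g - m) := by
      rcases le_or_gt m 1 with h1 | h1
      · have c1 : 0 < 3 + 2 * g - m ^ 2 := by nlinarith
        have c2 : 0 ≤ 4 * m * (4 + 2 * g - m) := mul_nonneg (by linarith) (by linarith)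
        have c3 : 0 < (2 + g) ^ 2 * (3 + 2 * g - m ^ 2) := by positivity
        linarith
      · have hg1 : g ≤ 1 := by nlinarith
        have c1 : -1 + 4 * g + g ^ 2 ≤ 3 + 2 * g - m ^ 2 := by linarith
        have c2 : (2 + g) ^ 2 * (-1 + 4 * g + g ^ 2) ≤ (2 + g) ^ 2 * (3 + 2 * g - m ^ 2) :=
          mul_le_mul_of_nonneg_left c1 (by positivity)
        have c3 : -4 ≤ (2 + g) ^ 2 * (-1 + 4 * g + g ^ 2) := by
          have : (2 + g) ^ 2 * (-1 + 4 * g + g ^ 2) + 4 =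
            12 * g + 19 * g ^ 2 + 8 * g ^ 3 + g ^ 4 := by ring
          have : 0 ≤ 12 * g + 19 * g ^ 2 + 8 * g ^ 3 + g ^ 4 := by positivity
          linarith
        have c4 : 8 ≤ 4 * m * (4 + 2 * g - m) := by nlinarith
        linarith
    have key : (s * (2 + g - m)) ^ 2 < (2 * V * (2 + g)) ^ 2 := by
      have e1 : (2 * V * (2 + g)) ^ 2 = 4 * (2 + g) ^ 2 * (7 + 2 * g - m ^ 2) := by
        rw [← hV]; ring
      have e2 : (s * (2 + g - m)) ^ 2 = (16 - (m - g) ^ 2) * (2 + g - m) ^ 2 := by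
        rw [← hss]; ring
      rw [e1, e2]
      have : 0 ≤ (m - g) ^ 2 * (2 + g - m) ^ 2 := by positivity
      nlinarith
    have := lt_of_pow_lt_pow_left₀ 2 (by positivity) key
    linarith

/-- the middle coefficient, one negative variable. -/
theorem E_one {x y z p q r : ℝ} (hx : x ≤ 0) (hy : 0 ≤ y) (hz : 0 ≤ z) (hy2 : y < 2)
    (hz2 : z < 2) (hp : p ^ 2 = 4 - x ^ 2) (hq : q ^ 2 = 4 - y ^ 2) (hr : r ^ 2 = 4 - z ^ 2)
    (hp0 : 0 < p) (hq0 : 0 < q) (hr0 : 0 < r)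
    (h2 : 0 ≤ 3 + x * y + y * z + z * x)
    (h3 : 0 ≤ 2 * (x + y + z) + x * y * z) :
    0 < p * (2 + y * z) + q * (2 + x * z) + r * (2 + x * y) := by
  have hg : 0 ≤ y * z := mul_nonneg hy hz
  have hg2 : 0 < 2 + y * z := by linarith
  have hm := prod_sq hq hr
  have hm0 : 0 < q * r := mul_pos hq0 hr0
  have h3' : -x * (2 + y * z) ≤ 2 * (y + z) := by nlinarith
  have h2' : -x * (y + z) ≤ 3 + y * z := by nlinarith
  rcases le_total (2 * (y + z) ^ 2) ((3 + y * z) * (2 + y * z)) with hc | hc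
  · have hyz : y + z ≤ 2 + y * z := by nlinarith
    have hW0 : 0 ≤ (2 + y * z) ^ 2 - (y + z) ^ 2 := by nlinarith
    set W := Real.sqrt ((2 + y * z) ^ 2 - (y + z) ^ 2) with hW
    have hWsq : W ^ 2 = (2 + y * z) ^ 2 - (y + z) ^ 2 := Real.sq_sqrt hW0
    have hWn : 0 ≤ W := Real.sqrt_nonneg _
    have h1 : 2 * W ≤ p * (2 + y * z) := by
      have : (2 * W) ^ 2 ≤ (p * (2 + y * z)) ^ 2 := by
        have e : (p * (2 + y * z)) ^ 2 - (2 * W) ^ 2 =
            (2 * (y + z) - (-x) * (2 + y * z)) * (2 * (y + z) + (-x) * (2 + y * z)) := by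
          linear_combination (2 + y * z) ^ 2 * hp - 4 * hWsq
        have h4 : 0 ≤ 2 * (y + z) + (-x) * (2 + y * z) := by
          have := mul_nonneg (neg_nonneg.2 hx) hg2.le
          linarith
        have h5 : 0 ≤ 2 * (y + z) - (-x) * (2 + y * z) := by linarith
        have := mul_nonneg h5 h4
        linarith
      exact (abs_le_of_sq_le_sq' this (by positivity)).2
    have hfin : 0 < (2 + y * z) * W + (q + r) * (q * r - 2) := by
      apply caseI hg hm0 hWn (by linarith)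
      · rw [hWsq, hm]; ring
      · have : 4 * (q + r) ^ 2 = 4 * q ^ 2 + 4 * r ^ 2 + 8 * (q * r) := by ring
        rw [this, hq, hr]
        linear_combination (-1 : ℝ) * hm
      · nlinarith
    have h8 : 0 < (2 + y * z) * (p * (2 + y * z) + q * (2 + x * z) + r * (2 + x * y)) := by
      have a1 : 2 * W * (2 + y * z) ≤ p * (2 + y * z) * (2 + y * z) :=
        mul_le_mul_of_nonneg_right h1 hg2.le
      have a2 : 0 ≤ q * z * (2 * (y + z) - (-x) * (2 + y * z)) :=
        mul_nonneg (mul_nonneg hq0.le hz) (by linarith)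
      have a3 : 0 ≤ r * y * (2 * (y + z) - (-x) * (2 + y * z)) :=
        mul_nonneg (mul_nonneg hr0.le hy) (by linarith)
      have e : (2 + y * z) * (p * (2 + y * z) + q * (2 + x * z) + r * (2 + x * y)) =
          (p * (2 + y * z) * (2 + y * z) - 2 * W * (2 + y * z)) +
          q * z * (2 * (y + z) - (-x) * (2 + y * z)) +
          r * y * (2 * (y + z) - (-x) * (2 + y * z)) +
          2 * ((2 + y * z) * W + (q + r) * (q * r - 2)) := by
        linear_combination (-2 * r) * hq + (-2 * q) * hr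
      rw [e]
      linarith
    exact pos_of_mul_pos_of_pos_left' h8 hg2
  · have hyz0 : 0 < y + z := by
      by_contra hcon
      have h0 : y + z = 0 := by linarith
      rw [h0] at hc
      nlinarith
    have hV0 : 0 ≤ 4 * (y + z) ^ 2 - (3 + y * z) ^ 2 := by nlinarith
    set V := Real.sqrt (4 * (y + z) ^ 2 - (3 + y * z) ^ 2) with hV
    have hVsq : V ^ 2 = 4 * (y + z) ^ 2 - (3 + y * z) ^ 2 := Real.sq_sqrt hV0
    have hVn : 0 ≤ V := Real.sqrt_nonneg _
    have h1 : V ≤ p * (y + z) := by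
      have : V ^ 2 ≤ (p * (y + z)) ^ 2 := by
        have e : (p * (y + z)) ^ 2 - V ^ 2 =
            ((3 + y * z) - (-x) * (y + z)) * ((3 + y * z) + (-x) * (y + z)) := by
          linear_combination (y + z) ^ 2 * hp - hVsq
        have h4 : 0 ≤ (3 + y * z) + (-x) * (y + z) := by
          have := mul_nonneg (neg_nonneg.2 hx) hyz0.le
          linarith
        have h5 : 0 ≤ (3 + y * z) - (-x) * (y + z) := by linarith
        have := mul_nonneg h5 h4
        linarith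
      exact (abs_le_of_sq_le_sq' this (by positivity)).2
    have hfin : 0 < V * (2 + y * z) + (q * z + r * y) * (q * r - y * z - 2) / 2 := by
      apply caseII hg hm0 hVn (by positivity)
      · rw [hVsq, hm]; ring
      · have : (q * z + r * y) ^ 2 = q ^ 2 * z ^ 2 + r ^ 2 * y ^ 2 + 2 * (q * r) * (y * z) := by
          ring
        rw [this, hq, hr]
        linear_combination hm
      · nlinarith
    have h8 : 0 < (y + z) * (p * (2 + y * z) + q * (2 + x * z) + r * (2 + x * y)) := by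
      have a1 : V * (2 + y * z) ≤ p * (y + z) * (2 + y * z) :=
        mul_le_mul_of_nonneg_right h1 hg2.le
      have a2 : 0 ≤ q * z * ((3 + y * z) - (-x) * (y + z)) :=
        mul_nonneg (mul_nonneg hq0.le hz) (by linarith)
      have a3 : 0 ≤ r * y * ((3 + y * z) - (-x) * (y + z)) :=
        mul_nonneg (mul_nonneg hr0.le hy) (by linarith)
      have e : (y + z) * (p * (2 + y * z) + q * (2 + x * z) + r * (2 + x * y)) =
          (p * (y + z) * (2 + y * z) - V * (2 + y * z)) +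
          q * z * ((3 + y * z) - (-x) * (y + z)) +
          r * y * ((3 + y * z) - (-x) * (y + z)) +
          (V * (2 + y * z) + (q * z + r * y) * (q * r - y * z - 2) / 2) := by
        linear_combination (-(r * z) / 2) * hq + (-(q * y) / 2) * hr
      rw [e]
      linarith
    exact pos_of_mul_pos_of_pos_left' h8 hyz0

end Pool.Agent.W299.EV3
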